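import Mathlib

/-!
Balanced separators of the subgraphs of the subdivided complete graph.
-/

set_option autoImplicit false

namespace Pool.Agent.P8H99.Sep

open Finset

/-- Vertices of the subdivided complete graph: branch vertices `inl u`, and `inr (u, v, i)` for the
vertex number `i + 1` on the half path from `u` towards `v`. -/
abbrev VS (N r : ℕ) : Type := Fin N ⊕ (Fin N × Fin N × Fin r)

/-- half of the adjacency -/
def rel (N r : ℕ) : VS N r → VS N r → Prop
  | Sum.inl u, Sum.inr (u', v, i) => u = u' ∧ u ≠ v ∧ i.val = 0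
  | Sum.inr (u, v, i), Sum.inr (u', v', j) => u ≠ v ∧
      ((u = u' ∧ v = v' ∧ i.val + 1 = j.val) ∨ (u = v' ∧ v = u' ∧ i.val + 1 = r ∧ j.val + 1 = r))
  | _, _ => False

/-- the complete graph on `N` vertices, every edge subdivided `2 r` times -/
def sub (N r : ℕ) : SimpleGraph (VS N r) := SimpleGraph.fromRel (rel N r)

/-- the star to which a vertex belongs -/
def star {N r : ℕ} : VS N r → Fin N
  | Sum.inl u => u
  | Sum.inr (u, _, _) => u

lemma adj_inl_inl {N r : ℕ} (u v : Fin N) : ¬ (sub N r).Adj (Sum.inl u) (Sum.inl v) := by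
  unfold sub
  rw [SimpleGraph.fromRel_adj]
  simp [rel]

lemma adj_inl_inr {N r : ℕ} {u u' v : Fin N} {i : Fin r}
    (h : (sub N r).Adj (Sum.inl u) (Sum.inr (u', v, i))) : u = u' ∧ u ≠ v ∧ i.val = 0 := by
  unfold sub at h
  rw [SimpleGraph.fromRel_adj] at h
  simpa [rel] using h.2

lemma adj_inr_inr {N r : ℕ} {u v u' v' : Fin N} {i j : Fin r}
    (h : (sub N r).Adj (Sum.inr (u, v, i)) (Sum.inr (u', v', j))) : u ≠ v ∧
      ((u = u' ∧ v = v' ∧ (i.val + 1 = j.val ∨ j.val + 1 = i.val)) ∨
        (u = v' ∧ v = u' ∧ i.val + 1 = r ∧ j.val + 1 = r)) := by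
  unfold sub at h
  rw [SimpleGraph.fromRel_adj] at h
  obtain ⟨-, h | h⟩ := h
  · obtain ⟨h1, h2 | h2⟩ := h
    · exact ⟨h1, Or.inl ⟨h2.1, h2.2.1, Or.inl h2.2.2⟩⟩
    · exact ⟨h1, Or.inr h2⟩
  · obtain ⟨h1, h2 | h2⟩ := h
    · obtain ⟨h3, h4, h5⟩ := h2
      subst h3 h4
      exact ⟨h1, Or.inl ⟨rfl, rfl, Or.inr h5⟩⟩
    · obtain ⟨h3, h4, h5, h6⟩ := h2
      subst h3 h4
      exact ⟨h1.symm, Or.inr ⟨rfl, rfl, h6, h5⟩⟩

section

variable {N r n : ℕ} (φ : Fin n → VS N r)

/-- the vertices in the star of `u` -/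
def st (u : Fin N) : Finset (Fin n) := univ.filter fun x => star (φ x) = u

/-- `x` is on the path between `u` and `v`, oriented from `u` to `v`, at the position `p` -/
def At (u v : Fin N) (x : Fin n) (p : ℕ) : Prop :=
  (∃ i : Fin r, φ x = Sum.inr (u, v, i) ∧ p = i.val) ∨
    (∃ i : Fin r, φ x = Sum.inr (v, u, i) ∧ p + i.val + 1 = 2 * r)

lemma At.unique {φ : Fin n → VS N r} {u v : Fin N} (huv : u ≠ v) {x : Fin n} {p q : ℕ}
    (h1 : At φ u v x p) (h2 : At φ u v x q) : p = q := by
  rcases h1 with ⟨i, hi, hp⟩ | ⟨i, hi, hp⟩ <;> rcases h2 with ⟨j, hj, hq⟩ | ⟨j, hj, hq⟩ <;>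
    rw [hi] at hj <;> simp only [Sum.inr.injEq, Prod.mk.injEq] at hj
  · obtain ⟨-, -, h⟩ := hj; subst h; omega
  · exact absurd hj.1 huv
  · exact absurd hj.1 (Ne.symm huv)
  · obtain ⟨-, -, h⟩ := hj; subst h; omega

lemma At.inj {φ : Fin n → VS N r} (hφ : Function.Injective φ) {u v : Fin N} {x y : Fin n} {p : ℕ}
    (h1 : At φ u v x p) (h2 : At φ u v y p) : x = y := by
  apply hφ
  rcases h1 with ⟨i, hi, hp⟩ | ⟨i, hi, hp⟩ <;> rcases h2 with ⟨j, hj, hq⟩ | ⟨j, hj, hq⟩
  · have : i = j := Fin.ext (by omega)
    rw [hi, hj, this]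
  · exfalso; have := i.2; have := j.2; omega
  · exfalso; have := i.2; have := j.2; omega
  · have : i = j := Fin.ext (by omega)
    rw [hi, hj, this]

/-- the vertices on the path between `u` and `v` -/
noncomputable def pa (u v : Fin N) : Finset (Fin n) := by
  classical exact univ.filter fun x => ∃ p, At φ u v x p

lemma mem_pa {φ : Fin n → VS N r} {u v : Fin N} {x : Fin n} : x ∈ pa φ u v ↔ ∃ p, At φ u v x p := by
  classical
  unfold pa
  simp

lemma mem_st {φ : Fin n → VS N r} {u : Fin N} {x : Fin n} : x ∈ st φ u ↔ star (φ x) = u := by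
  unfold st
  simp

end

/-- A neighbour, not a branch vertex, of a vertex of the path is on the path at a neighbouring
position. -/
lemma At.step {N r n : ℕ} {φ : Fin n → VS N r} {u v : Fin N} {x y : Fin n} {p : ℕ}
    (h : At φ u v x p) (hadj : (sub N r).Adj (φ x) (φ y)) (hy : ∀ w, φ y ≠ Sum.inl w) :
    ∃ q, At φ u v y q ∧ (q = p + 1 ∨ p = q + 1) := by
  obtain ⟨⟨a, b, j⟩, hj⟩ : ∃ z, φ y = Sum.inr z := by
    rcases hz : φ y with w | z
    · exact absurd hz (hy w)
    · exact ⟨z, rfl⟩
  rcases h with ⟨i, hi, hp⟩ | ⟨i, hi, hp⟩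
  · rw [hi, hj] at hadj
    obtain ⟨h1, h2 | h2⟩ := adj_inr_inr hadj
    · obtain ⟨h3, h4, h5⟩ := h2
      subst h3 h4
      exact ⟨j.val, Or.inl ⟨j, hj, rfl⟩, by omega⟩
    · obtain ⟨h3, h4, h5, h6⟩ := h2
      subst h3 h4
      refine ⟨r, Or.inr ⟨j, hj, by omega⟩, by omega⟩
  · rw [hi, hj] at hadj
    obtain ⟨h1, h2 | h2⟩ := adj_inr_inr hadj
    · obtain ⟨h3, h4, h5⟩ := h2
      subst h3 h4
      have := i.2
      have := j.2
      exact ⟨2 * r - j.val - 1, Or.inr ⟨j, hj, by omega⟩, by omega⟩
    · obtain ⟨h3, h4, h5, h6⟩ := h2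
      subst h3 h4
      exact ⟨j.val, Or.inl ⟨j, hj, rfl⟩, by omega⟩

/-- two different subsets with more than two thirds of the elements meet -/
lemma big_unique {n : ℕ} {A B : Finset (Fin n)} (hA : 2 * n < 3 * A.card) (hB : 2 * n < 3 * B.card) :
    ∃ x, x ∈ A ∧ x ∈ B := by
  by_contra hcon
  push Not at hcon
  have hd : Disjoint A B := Finset.disjoint_left.2 hcon
  have h1 := Finset.card_union_of_disjoint hd
  have h2 := Finset.card_le_univ (A ∪ B)
  rw [Fintype.card_fin] at h2
  omega

/-- reachability inside a set closed under adjacency -/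
lemma closed_reach {V : Type*} {G : SimpleGraph V} {Z : Set V} {a b : V} (h : G.Reachable a b)
    (ha : a ∈ Z) (hZ : ∀ x y, G.Reachable a x → x ∈ Z → G.Adj x y → y ∈ Z) : b ∈ Z := by
  have key : ∀ (c d : V) (_ : G.Walk c d), G.Reachable a c → c ∈ Z → d ∈ Z := by
    intro c d q
    induction q with
    | nil => exact fun _ h => h
    | cons hadj q ih =>
      intro hr hc
      exact ih (hr.trans hadj.reachable) (hZ _ _ hr hc hadj)
  obtain ⟨p⟩ := h
  exact key a b p (SimpleGraph.Reachable.refl a) ha

/-- The separator. -/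
theorem separator {N r n : ℕ} (hr : 1 ≤ r) (G : SimpleGraph (Fin n)) (φ : Fin n → VS N r)
    (hφ : Function.Injective φ) (hG : ∀ a b, G.Adj a b → (sub N r).Adj (φ a) (φ b)) :
    ∃ S : Finset (Fin n), (∃ h : ℕ, S.card ≤ h + 2 ∧ h ≤ N ∧ h * r ≤ n) ∧
      ∀ K : (G.induce ((S : Set (Fin n))ᶜ)).ConnectedComponent, 3 * K.supp.ncard ≤ 2 * n := by
  classical
  rcases Nat.lt_or_ge n 2 with hn | hn
  · refine ⟨univ, ⟨0, ?_, Nat.zero_le _, by simp⟩, ?_⟩
    · rw [Finset.card_univ, Fintype.card_fin]; omega
    · intro K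
      obtain ⟨a, -⟩ := K.nonempty_supp
      exact absurd a.2 (by simp)
  -- heavy branch vertices
  set Hv : Finset (Fin N) := univ.filter fun u => r + 1 ≤ (st φ u).card with hHv
  have hcount : Hv.card * r ≤ n := by
    have h1 : ∑ u ∈ Hv, (st φ u).card ≤ n := by
      rw [← Finset.card_biUnion]
      · refine (Finset.card_le_univ _).trans ?_
        rw [Fintype.card_fin]
      · intro u _ v _ huv
        rw [Function.onFun, Finset.disjoint_left]
        intro x hx hx'
        rw [mem_st] at hx hx'
        exact huv (hx.symm.trans hx')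
    have h2 : Hv.card * (r + 1) ≤ ∑ u ∈ Hv, (st φ u).card := by
      rw [← smul_eq_mul, ← Finset.sum_const]
      refine Finset.sum_le_sum (fun u hu => ?_)
      rw [hHv, Finset.mem_filter] at hu
      exact hu.2
    nlinarith
  set S1 : Finset (Fin n) := univ.filter fun x => ∃ u ∈ Hv, φ x = Sum.inl u with hS1
  have hS1c : S1.card ≤ Hv.card := by
    have : ∀ x ∈ S1, star (φ x) ∈ Hv := by
      intro x hx
      rw [hS1, Finset.mem_filter] at hx
      obtain ⟨-, u, hu, hx⟩ := hx
      rw [hx]; exact hu
    refine Finset.card_le_card_of_injOn (fun x => star (φ x)) this ?_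
    intro x hx y hy hxy
    rw [hS1, Finset.mem_coe, Finset.mem_filter] at hx hy
    obtain ⟨-, u, hu, hx⟩ := hx
    obtain ⟨-, v, hv, hy⟩ := hy
    apply hφ
    simp only [hx, hy, star] at hxy
    rw [hx, hy, hxy]
  -- one big star
  obtain ⟨S2, hS2c, hS2⟩ : ∃ S2 : Finset (Fin n), S2.card ≤ 1 ∧
      ∀ x w, φ x = Sum.inl w → x ∉ S2 → 3 * (st φ w).card ≤ 2 * n := by
    by_cases h : ∃ x w, φ x = Sum.inl w ∧ 2 * n < 3 * (st φ w).card
    · obtain ⟨x, w, hx, hw⟩ := h
      refine ⟨{x}, by simp, ?_⟩
      intro y v hy hyx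
      by_contra hcon
      push Not at hcon
      obtain ⟨z, hz1, hz2⟩ := big_unique hw hcon
      rw [mem_st] at hz1 hz2
      have : w = v := hz1.symm.trans hz2
      subst this
      apply hyx
      rw [Finset.mem_singleton]
      exact hφ (hy.trans hx.symm)
    · push Not at h
      exact ⟨∅, by simp, fun x w hx _ => h x w hx⟩
  -- one big path
  obtain ⟨S3, hS3c, hS3⟩ : ∃ S3 : Finset (Fin n), S3.card ≤ 1 ∧
      ∀ u v : Fin N, u ≠ v → ∀ x ∉ S3, ∀ p, At φ u v x p → ∃ Z : Finset (Fin n), x ∈ Z ∧
        3 * Z.card ≤ 2 * n ∧ ∀ y ∈ Z, ∀ z ∉ S3, (sub N r).Adj (φ y) (φ z) →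
          (∀ w, φ z ≠ Sum.inl w) → z ∈ Z := by
    by_cases h : ∃ u v, u ≠ v ∧ 2 * n < 3 * (pa φ u v).card
    · obtain ⟨u, v, huv, hbig⟩ := h
      -- the threshold
      set cnt : ℕ → Finset (Fin n) := fun t => univ.filter fun x => ∃ p, At φ u v x p ∧ p ≤ t
        with hcnt
      have hex : ∃ t, n < 3 * (cnt t).card := by
        refine ⟨2 * r, ?_⟩
        have : pa φ u v ⊆ cnt (2 * r) := by
          intro x hx
          obtain ⟨p, hp⟩ := mem_pa.1 hx
          rw [hcnt, Finset.mem_filter]
          refine ⟨Finset.mem_univ _, p, hp, ?_⟩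
          rcases hp with ⟨i, -, hp⟩ | ⟨i, -, hp⟩
          · have := i.2; omega
          · omega
        have := Finset.card_le_card this
        omega
      set t := Nat.find hex with ht
      have ht1 : n < 3 * (cnt t).card := Nat.find_spec hex
      have ht2 : 3 * (univ.filter fun x => ∃ p, At φ u v x p ∧ p < t).card ≤ n := by
        rcases Nat.eq_zero_or_pos t with h0 | h0
        · rw [h0]
          simp
        · have h1 : ¬ n < 3 * (cnt (t - 1)).card := Nat.find_min hex (by omega)
          have h2 : (univ.filter fun x => ∃ p, At φ u v x p ∧ p < t) ⊆ cnt (t - 1) := by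
            intro x hx
            rw [Finset.mem_filter] at hx
            rw [hcnt, Finset.mem_filter]
            obtain ⟨-, p, hp, hpt⟩ := hx
            exact ⟨Finset.mem_univ _, p, hp, by omega⟩
          have h3 := Finset.card_le_card h2
          omega
      obtain ⟨x0, hx0⟩ : ∃ x0, At φ u v x0 t := by
        by_contra hcon
        push Not at hcon
        have h2 : cnt t ⊆ (univ.filter fun x => ∃ p, At φ u v x p ∧ p < t) := by
          intro x hx
          rw [hcnt, Finset.mem_filter] at hx
          rw [Finset.mem_filter]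
          obtain ⟨-, p, hp, hpt⟩ := hx
          refine ⟨Finset.mem_univ _, p, hp, lt_of_le_of_ne hpt ?_⟩
          rintro rfl
          exact hcon x hp
        have h3 := Finset.card_le_card h2
        omega
      have ht3 : 3 * (univ.filter fun x => ∃ p, At φ u v x p ∧ t < p).card ≤ 2 * n := by
        have hd : Disjoint (cnt t) (univ.filter fun x => ∃ p, At φ u v x p ∧ t < p) := by
          rw [Finset.disjoint_left]
          intro x hx hx'
          rw [hcnt, Finset.mem_filter] at hx
          rw [Finset.mem_filter] at hx'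
          obtain ⟨-, p, hp, hpt⟩ := hx
          obtain ⟨-, q, hq, hqt⟩ := hx'
          have := At.unique huv hp hq
          omega
        have h1 := Finset.card_union_of_disjoint hd
        have h2 := Finset.card_le_univ (cnt t ∪ (univ.filter fun x => ∃ p, At φ u v x p ∧ t < p))
        rw [Fintype.card_fin] at h2
        omega
      refine ⟨{x0}, by simp, ?_⟩
      -- the main case: the path between u and v
      have main : ∀ x ∉ ({x0} : Finset (Fin n)), ∀ p, At φ u v x p → ∃ Z : Finset (Fin n), x ∈ Z ∧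
          3 * Z.card ≤ 2 * n ∧ ∀ y ∈ Z, ∀ z ∉ ({x0} : Finset (Fin n)), (sub N r).Adj (φ y) (φ z) →
          (∀ w, φ z ≠ Sum.inl w) → z ∈ Z := by
        intro x hx p hp
        rw [Finset.mem_singleton] at hx
        rcases lt_trichotomy p t with h | h | h
        · refine ⟨univ.filter fun x => ∃ p, At φ u v x p ∧ p < t, ?_, by omega, ?_⟩
          · rw [Finset.mem_filter]; exact ⟨Finset.mem_univ _, p, hp, h⟩
          · intro y hy z hz hadj hzw
            rw [Finset.mem_filter] at hy ⊢
            obtain ⟨-, q, hq, hqt⟩ := hy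
            obtain ⟨q', hq', h'⟩ := hq.step hadj hzw
            refine ⟨Finset.mem_univ _, q', hq', ?_⟩
            rcases lt_trichotomy q' t with h4 | h4 | h4
            · exact h4
            · subst h4
              exact absurd (At.inj hφ hq' hx0) (by rw [Finset.mem_singleton] at hz; exact hz)
            · omega
        · subst h
          exact absurd (At.inj hφ hp hx0) hx
        · refine ⟨univ.filter fun x => ∃ p, At φ u v x p ∧ t < p, ?_, by omega, ?_⟩
          · rw [Finset.mem_filter]; exact ⟨Finset.mem_univ _, p, hp, h⟩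
          · intro y hy z hz hadj hzw
            rw [Finset.mem_filter] at hy ⊢
            obtain ⟨-, q, hq, hqt⟩ := hy
            obtain ⟨q', hq', h'⟩ := hq.step hadj hzw
            refine ⟨Finset.mem_univ _, q', hq', ?_⟩
            rcases lt_trichotomy q' t with h4 | h4 | h4
            · omega
            · subst h4
              exact absurd (At.inj hφ hq' hx0) (by rw [Finset.mem_singleton] at hz; exact hz)
            · exact h4
      intro a b hab x hx p hp
      by_cases hbig' : 3 * (pa φ a b).card ≤ 2 * n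
      · refine ⟨pa φ a b, mem_pa.2 ⟨p, hp⟩, hbig', ?_⟩
        intro y hy z _ hadj hzw
        obtain ⟨q, hq⟩ := mem_pa.1 hy
        obtain ⟨q', hq', -⟩ := hq.step hadj hzw
        exact mem_pa.2 ⟨q', hq'⟩
      · push Not at hbig'
        obtain ⟨z, hz1, hz2⟩ := big_unique hbig hbig'
        obtain ⟨q, hq⟩ := mem_pa.1 hz1
        obtain ⟨q', hq'⟩ := mem_pa.1 hz2
        have hor : (a = u ∧ b = v) ∨ (a = v ∧ b = u) := by
          rcases hq with ⟨i, hi, -⟩ | ⟨i, hi, -⟩ <;> rcases hq' with ⟨j, hj, -⟩ | ⟨j, hj, -⟩ <;>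
            rw [hi] at hj <;> simp only [Sum.inr.injEq, Prod.mk.injEq] at hj
          · exact Or.inl ⟨hj.1.symm, hj.2.1.symm⟩
          · exact Or.inr ⟨hj.2.1.symm, hj.1.symm⟩
          · exact Or.inr ⟨hj.1.symm, hj.2.1.symm⟩
          · exact Or.inl ⟨hj.2.1.symm, hj.1.symm⟩
        have hsw : ∃ q, At φ u v x q := by
          rcases hor with ⟨rfl, rfl⟩ | ⟨rfl, rfl⟩
          · exact ⟨p, hp⟩
          · rcases hp with ⟨i, hi, hp⟩ | ⟨i, hi, hp⟩
            · have := i.2
              exact ⟨2 * r - i.val - 1, Or.inr ⟨i, hi, by omega⟩⟩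
            · exact ⟨i.val, Or.inl ⟨i, hi, rfl⟩⟩
        obtain ⟨q, hq⟩ := hsw
        exact main x hx q hq
    · push Not at h
      refine ⟨∅, by simp, ?_⟩
      intro u v huv x _ p hp
      refine ⟨pa φ u v, mem_pa.2 ⟨p, hp⟩, h u v huv, ?_⟩
      intro y hy z _ hadj hzw
      obtain ⟨q, hq⟩ := mem_pa.1 hy
      obtain ⟨q', hq', -⟩ := hq.step hadj hzw
      exact mem_pa.2 ⟨q', hq'⟩
  refine ⟨S1 ∪ S2 ∪ S3, ⟨Hv.card, ?_, ?_, hcount⟩, ?_⟩
  · have h1 := Finset.card_union_le (S1 ∪ S2) S3
    have h2 := Finset.card_union_le S1 S2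
    omega
  · refine (Finset.card_le_univ _).trans ?_
    rw [Fintype.card_fin]
  · intro K
    -- it suffices to find a set containing the component
    suffices hZ : ∃ Z : Finset (Fin n), 3 * Z.card ≤ 2 * n ∧ ∀ y ∈ K.supp, (y : Fin n) ∈ Z by
      obtain ⟨Z, hZ1, hZ2⟩ := hZ
      have h1 : K.supp.ncard ≤ Z.card := by
        rw [← Set.ncard_coe_finset]
        refine Set.ncard_le_ncard_of_injOn (fun y => (y : Fin n)) (fun y hy => ?_) ?_ (Set.toFinite _)
        · exact_mod_cast hZ2 y hy
        · intro y _ z _ hyz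
          exact Subtype.ext hyz
      omega
    obtain ⟨a, ha⟩ := K.nonempty_supp
    have hreach : ∀ y ∈ K.supp, (G.induce (((S1 ∪ S2 ∪ S3 : Finset (Fin n)) : Set (Fin n))ᶜ)).Reachable a y := by
      intro y hy
      rw [SimpleGraph.ConnectedComponent.mem_supp_iff] at ha hy
      exact SimpleGraph.ConnectedComponent.exact (ha.trans hy.symm)
    have hnot : ∀ y : ((((S1 ∪ S2 ∪ S3 : Finset (Fin n)) : Set (Fin n))ᶜ : Set (Fin n))),
        (y : Fin n) ∉ S1 ∧ (y : Fin n) ∉ S2 ∧ (y : Fin n) ∉ S3 := by
      intro y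
      have := y.2
      rw [Set.mem_compl_iff, Finset.mem_coe, Finset.mem_union, Finset.mem_union] at this
      tauto
    by_cases hb : ∃ b ∈ K.supp, ∃ w, φ (b : Fin n) = Sum.inl w
    · obtain ⟨b, hbK, w, hw⟩ := hb
      have hlight : (st φ w).card ≤ r := by
        by_contra hcon
        push Not at hcon
        exact (hnot b).1 (Finset.mem_filter.2 ⟨Finset.mem_univ _, w,
          Finset.mem_filter.2 ⟨Finset.mem_univ _, hcon⟩, hw⟩)
      refine ⟨st φ w, hS2 _ _ hw (hnot b).2.1, ?_⟩
      -- the closed set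
      let Z : Set ((((S1 ∪ S2 ∪ S3 : Finset (Fin n)) : Set (Fin n))ᶜ : Set (Fin n))) :=
        {x | φ x = Sum.inl w ∨ ∃ v i, w ≠ v ∧ φ x = Sum.inr (w, v, i) ∧
          ∀ j : Fin r, j ≤ i → ∃ y, φ y = Sum.inr (w, v, j)}
      intro y hy
      have hby : (G.induce (((S1 ∪ S2 ∪ S3 : Finset (Fin n)) : Set (Fin n))ᶜ)).Reachable b y :=
        (hreach b hbK).symm.trans (hreach y hy)
      have hyZ : y ∈ Z := by
        refine closed_reach hby (Or.inl hw) ?_
        intro x z _ hx hadj
        have hadj' : (sub N r).Adj (φ x) (φ z) := hG _ _ hadj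
        rcases hx with hx | ⟨v, i, hwv, hx, hall⟩
        · rw [hx] at hadj'
          rcases hz : φ (z : Fin n) with w' | ⟨u', v', i'⟩
          · rw [hz] at hadj'
            exact absurd hadj' (adj_inl_inl _ _)
          · rw [hz] at hadj'
            obtain ⟨h1, h2, h3⟩ := adj_inl_inr hadj'
            subst h1
            right
            refine ⟨v', i', h2, hz, ?_⟩
            intro j hj
            have : j = i' := Fin.ext (by have : j.val ≤ i'.val := hj; omega)
            exact ⟨z, by rw [this]; exact hz⟩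
        · rw [hx] at hadj'
          rcases hz : φ (z : Fin n) with w' | ⟨u', v', i'⟩
          · rw [hz] at hadj'
            obtain ⟨h1, h2, h3⟩ := adj_inl_inr hadj'.symm
            left
            rw [hz, h1]
          · rw [hz] at hadj'
            obtain ⟨h1, h2 | h2⟩ := adj_inr_inr hadj'
            · obtain ⟨h3, h4, h5⟩ := h2
              subst h3 h4
              right
              refine ⟨v, i', hwv, hz, ?_⟩
              intro j hj
              rcases lt_or_ge i.val j.val with h6 | h6
              · have : j = i' := Fin.ext (by have : j.val ≤ i'.val := hj; omega)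
                exact ⟨z, by rw [this]; exact hz⟩
              · exact hall j h6
            · exfalso
              obtain ⟨h3, h4, h5, h6⟩ := h2
              -- the whole half path and the branch vertex
              choose g hg using fun j : Fin r => hall j (by
                show j.val ≤ i.val
                have := j.2
                omega)
              have hsub : insert (b : Fin n) (univ.image g) ⊆ st φ w := by
                intro x hx
                rw [Finset.mem_insert, Finset.mem_image] at hx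
                rw [mem_st]
                rcases hx with rfl | ⟨j, -, rfl⟩
                · rw [hw]; rfl
                · rw [hg]; rfl
              have hc := Finset.card_le_card hsub
              rw [Finset.card_insert_of_notMem, Finset.card_image_of_injective, Finset.card_univ,
                Fintype.card_fin] at hc
              · omega
              · intro j j' hjj
                have h7 := hg j
                rw [hjj, hg j'] at h7
                simp only [Sum.inr.injEq, Prod.mk.injEq] at h7
                exact h7.2.2.symm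
              · rw [Finset.mem_image]
                rintro ⟨j, -, hj⟩
                have h7 := hg j
                rw [hj, hw] at h7
                exact absurd h7 (by simp)
      rw [mem_st]
      rcases hyZ with hy | ⟨v, i, -, hy, -⟩
      · rw [hy]; rfl
      · rw [hy]; rfl
    · push Not at hb
      -- the component is inside a path
      obtain ⟨⟨u, v, i⟩, hi⟩ : ∃ z, φ (a : Fin n) = Sum.inr z := by
        rcases hz : φ (a : Fin n) with w | z
        · exact absurd hz (hb a ha w)
        · exact ⟨z, rfl⟩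
      by_cases huv : u = v
      · -- an isolated vertex
        subst huv
        have hall : ∀ y ∈ K.supp, y = a := by
          intro y hy
          have := closed_reach (Z := {x | x = a}) (hreach y hy) rfl ?_
          · exact this
          · intro x z _ hx hadj
            have hadj' : (sub N r).Adj (φ x) (φ z) := hG _ _ hadj
            have hx' : x = a := hx
            rw [hx', hi] at hadj'
            exfalso
            rcases hz : φ (z : Fin n) with w' | ⟨u', v', i'⟩
            · rw [hz] at hadj'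
              obtain ⟨h1, h2, h3⟩ := adj_inl_inr hadj'.symm
              exact h2 h1
            · rw [hz] at hadj'
              exact (adj_inr_inr hadj').1 rfl
        refine ⟨{(a : Fin n)}, ?_, ?_⟩
        · rw [Finset.card_singleton]; omega
        · intro y hy
          rw [hall y hy]
          simp
      · obtain ⟨Z, haZ, hZ, hZc⟩ := hS3 u v huv a (hnot a).2.2 i.val (Or.inl ⟨i, hi, rfl⟩)
        refine ⟨Z, hZ, ?_⟩
        intro y hy
        have := closed_reach (Z := {x : ((((S1 ∪ S2 ∪ S3 : Finset (Fin n)) : Set (Fin n))ᶜ :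
          Set (Fin n))) | (x : Fin n) ∈ Z}) (hreach y hy) haZ ?_
        · exact this
        · intro x z hax hx hadj
          have hadj' : (sub N r).Adj (φ x) (φ z) := hG _ _ hadj
          refine hZc _ hx _ (hnot z).2.2 hadj' ?_
          apply hb z
          rw [SimpleGraph.ConnectedComponent.mem_supp_iff] at ha ⊢
          rw [← ha]
          exact SimpleGraph.ConnectedComponent.sound ((hax.trans hadj.reachable).symm)

end Pool.Agent.P8H99.Sep
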